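import Pool.Agent.N641.VB.Stm

/-!
# Project VB (helper641), part ALG1: compact monoids, existence of a minimal element

Author: helper160.
-/

set_option autoImplicit false

namespace Pool.Agent.N160.VB.ALG1

open Set Filter Topology
open Pool.Agent.N641.VB

section

variable {X : Type} [TopologicalSpace X] [CompactSpace X] [T2Space X] [AddCommMonoid X]
  [ContinuousAdd X]

/-- The divisors of `t`. -/
def Sd (t : X) : Set X := {u : X | ∃ v, u + v = t}

omit [TopologicalSpace X] [CompactSpace X] [T2Space X] [ContinuousAdd X] in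
theorem Sd_refl (t : X) : t ∈ Sd t := ⟨0, add_zero t⟩

omit [TopologicalSpace X] [CompactSpace X] [T2Space X] [ContinuousAdd X] in
theorem Sd_trans {a b c : X} (h1 : a ∈ Sd b) (h2 : b ∈ Sd c) : a ∈ Sd c := by
  obtain ⟨v, hv⟩ := h1
  obtain ⟨w, hw⟩ := h2
  exact ⟨v + w, by rw [← add_assoc, hv, hw]⟩

theorem Sd_closed (t : X) : IsClosed (Sd t) := by
  have h1 : IsClosed {q : X × X | q.1 + q.2 = t} :=
    isClosed_eq (continuous_fst.add continuous_snd) continuous_const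
  have h2 : Sd t = Prod.fst '' {q : X × X | q.1 + q.2 = t} := by
    ext u
    constructor
    · rintro ⟨v, hv⟩
      exact ⟨(u, v), hv, rfl⟩
    · rintro ⟨⟨a, b⟩, hab, rfl⟩
      exact ⟨b, hab⟩
  rw [h2]
  exact (h1.isCompact.image continuous_fst).isClosed

/-- A chain has a lower bound. -/
theorem chain_bound (hfin : ∀ t : X, (Sd t).Finite → IsOpen {t}) (c : Set X) (hc : c.Nonempty)
    (hinf : ∀ t ∈ c, (Sd t).Infinite) (hch : ∀ a ∈ c, ∀ b ∈ c, a ∈ Sd b ∨ b ∈ Sd a) :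
    ∃ s : X, (Sd s).Infinite ∧ ∀ t ∈ c, s ∈ Sd t := by
  have hne : Nonempty c := hc.to_subtype
  let K : c → Set X := fun t => closure (c ∩ Sd (t : X))
  have h1 : (⋂ t, K t).Nonempty := by
    apply IsCompact.nonempty_iInter_of_directed_nonempty_isCompact_isClosed K
    · intro a b
      rcases hch a a.2 b b.2 with h | h
      · exact ⟨a, subset_rfl, closure_mono fun u hu => ⟨hu.1, Sd_trans hu.2 h⟩⟩
      · exact ⟨b, closure_mono fun u hu => ⟨hu.1, Sd_trans hu.2 h⟩, subset_rfl⟩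
    · intro t
      exact ⟨t, subset_closure ⟨t.2, Sd_refl _⟩⟩
    · intro t
      exact isClosed_closure.isCompact
    · intro t
      exact isClosed_closure
  obtain ⟨s, hs⟩ := h1
  rw [mem_iInter] at hs
  refine ⟨s, ?_, ?_⟩
  · intro hfs
    obtain ⟨t, ht⟩ := hc
    have h2 := hs ⟨t, ht⟩
    obtain ⟨u, hu1, hu2⟩ := mem_closure_iff.1 h2 {s} (hfin s hfs) rfl
    rw [mem_singleton_iff] at hu1
    rw [hu1] at hu2
    exact hinf s hu2.1 hfs
  · intro t ht
    have h2 := hs ⟨t, ht⟩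
    exact (closure_minimal inter_subset_right (Sd_closed t)) h2

theorem exists_min (hfin : ∀ t : X, (Sd t).Finite → IsOpen {t}) (t0 : X)
    (h0 : (Sd t0).Infinite) : ∃ t1 ∈ Sd t0, (Sd t1).Infinite ∧
      ∀ u ∈ Sd t1, (Sd u).Infinite → t1 ∈ Sd u := by
  have key := exists_maximal_of_chains_bounded
    (α := {t : X // t ∈ Sd t0 ∧ (Sd t).Infinite}) (r := fun a b => (b : X) ∈ Sd (a : X)) ?_ ?_
  · obtain ⟨m, hm⟩ := key
    refine ⟨m, m.2.1, m.2.2, fun u hu hui => ?_⟩
    exact hm ⟨u, Sd_trans hu m.2.1, hui⟩ hu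
  · intro c hc
    rcases c.eq_empty_or_nonempty with rfl | hne
    · exact ⟨⟨t0, Sd_refl _, h0⟩, fun a ha => absurd ha (notMem_empty a)⟩
    · obtain ⟨s, hs1, hs2⟩ := chain_bound hfin (Subtype.val '' c) (hne.image _) (by
        rintro _ ⟨t, ht, rfl⟩
        exact t.2.2) (by
        rintro _ ⟨a, ha, rfl⟩ _ ⟨b, hb, rfl⟩
        rcases eq_or_ne a b with h | h
        · rw [h]
          exact Or.inl (Sd_refl _)
        · exact (hc ha hb h).symm)
      obtain ⟨t, ht⟩ := hne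
      exact ⟨⟨s, Sd_trans (hs2 t ⟨t, ht, rfl⟩) t.2.1, hs1⟩, fun a ha => hs2 a ⟨a, ha, rfl⟩⟩
  · intro a b c hab hbc
    exact Sd_trans hbc hab

end

theorem ALG1 : S_ALG1 := by
  intro X _ _ _ _ _ hfin t0 h0
  obtain ⟨t1, h1, h2, h3⟩ := exists_min hfin t0 h0
  refine ⟨t1, h1, h2, fun u hu hui => h3 u hu hui, ?_⟩
  obtain ⟨h, hh, hacc⟩ := Set.Infinite.exists_accPt_of_subset_isCompact h2
    (Sd_closed t1).isCompact subset_rfl
  refine ⟨h, hh, ?_⟩
  rw [mem_closure_iff_clusterPt]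
  exact accPt_principal_iff_clusterPt.1 hacc

end Pool.Agent.N160.VB.ALG1
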